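import Pool.Agent.R484.SHc

/-!
# MP_9177b7_ag: equidistribution of Galois orbits of special points, products of Shimura curves

Let `k` be a totally real number field.  `CMTheory k` (module `R484.SHa`) records the Shimura curves
attached to quaternion algebras over totally real subfields of `k`, their CM points with the action
of the Galois group of `k`, and published theorems: the main theorem of complex multiplication,
genus theory, and the equidistribution on a single Shimura curve of the orbits of CM points under
subgroups of small index of the class groups (Zhang, Michel-Venkatesh).

We prove question Q1, for the products `S` of any number of Shimura curves, for the sequences of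
special points whose coordinates have pairwise distinct CM fields (after composition with `k`) or
nearly coprime conductors (`RingClass`, module `R484.SHc`); hence Q1 for `S` is reduced to the
opposite case; and the blocks of coordinates with distinct CM fields are independent of each other.
-/

namespace Pool.Agent.Results.MP_9177b7_ag.ProductsOfShimuraCurves

open Pool.Agent.R484.SH

theorem result {k : Type} [Field k] [NumberField k] (T : CMTheory k) (R : RingClass T.toShCurves)
    (F : IntermediateField k (Kb k)) [FiniteDimensional k F] :
    -- (1) distinct CM fields or nearly coprime conductors
    (∀ {n : ℕ} (c : Fin n → T.Crv) (S : Special T.toShCurves c), (∀ j, T.L (c j) ≤ F) →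
      ∀ x, Strict S x → Near R x → Equi T.toShCurves c F x) ∧
    -- (2) Q1 follows from Q1 for sequences of points which are far from this case
    (∀ {n : ℕ} (c : Fin n → T.Crv) (S : Special T.toShCurves c), (∀ j, T.L (c j) ≤ F) →
      (∀ x, Strict S x → Far R x → Equi T.toShCurves c F x) →
      ∀ x, Strict S x → Equi T.toShCurves c F x) ∧
    -- (3) independence of blocks of coordinates with distinct CM fields
    (∀ {r : ℕ} {J : Fin r → ℕ} (c : ∀ b, Fin (J b) → T.Crv) x K, BlockFields x K →
      (∀ b, BlockSmall T.toShCurves c F x K b) → BlockEqui T.toShCurves c F x) := by
  refine ⟨?_, ?_, ?_⟩
  · intro n c S hF x hx hn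
    exact strict_near T R c S F hF x hx hn
  · intro n c S hF h x hx
    exact reduceR T R c S F hF h x hx
  · intro r J c x K hK h
    exact block_indep T c F x K hK h

end Pool.Agent.Results.MP_9177b7_ag.ProductsOfShimuraCurves
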